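import Pool.Agent.Lib.H77D5.CF

/-!
# H47G6, file Fun: the relative form with cycles of length at least five for every `R`, from the exchange property of
# the covers by cycles of length at least five or by one cycle (MP_33911d)
-/

set_option autoImplicit false
set_option linter.unusedSectionVars false

open H53P SimpleDraw

namespace H47G6

open Finset H98P H98Z H98M H63F H30F H63L H97W H85TF LD H98TF H36V H47G5 H77D4

/-- The exchange property in 2-connected graphs. -/
def Exch (V : Type) [Fintype V] [DecidableEq V] : Prop :=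
  ∀ (E : Finset (Sym2 V)) (Y A U : Finset V) (b d : V), TCY E Y → Cv E (insert b A) → Cv E (insert d A) →
    b ∈ U → d ∈ U → ¬ Disc U E → (∀ u ∈ U, u ≠ b → u ≠ d → ¬ Cv E (insert u A)) → Cv E (insert b (insert d A))

/-- The covering predicate. -/
def K5 {V : Type} [Fintype V] [DecidableEq V] (G : Finset (Sym2 V)) (Y W : Finset V) : Prop := Cv G (W ∩ Y)

theorem kp5 {V : Type} [Fintype V] [DecidableEq V] (cf : CycFacts V) :
    KP (K5 : Finset (Sym2 V) → Finset V → Finset V → Prop) where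
  sub hW h := cv_dn _ _ _ (inter_subset_inter_right hW) h
  mono hG h := cv_mono _ _ _ hG h
  two := by
    intro G Y W h h2
    obtain ⟨T, hT1, hT2, hT3⟩ := exists_subsuperset_card_eq (n := 2) (s := W ∩ Y) (t := Y)
      inter_subset_right h2 (by have := h.three; omega)
    obtain ⟨a, b, hab, rfl⟩ := card_eq_two.1 hT3
    exact cv_dn _ _ _ hT1 (Or.inr (cf.pair G Y a b h (hT2 (by simp)) (hT2 (by simp))))
  cyc := fun h h2 => cv_dn _ _ _ inter_subset_right (Or.inr (cf.cyc _ _ h h2))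
  redn := by
    intro G Y W x y P Q hT hs hW h
    have h2 : W ∩ (Y \ Q) = W ∩ Y := by
      ext w
      simp only [mem_inter, mem_sdiff]
      exact ⟨fun h3 => ⟨h3.1, h3.2.1⟩, fun h3 => ⟨h3.1, h3.2, disjoint_left.1 hW h3.1⟩⟩
    unfold K5 at h ⊢
    rw [← h2]
    exact cf.red _ _ _ _ _ _ _ hT hs h

/-- The lower links for `K5`. -/
theorem L2_K5 {V : Type} [Fintype V] [DecidableEq V] (cf : CycFacts V) (ex : Exch V)
    {E G : Finset (Sym2 V)} (hGE : G ⊆ E) (hG : TCY G univ)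
    (hE : TCY E univ) {M : Finset V} (hM : ¬ Disc M G) (hU : U7 K5 E G univ M) :
    AC (Ch fun W : Finset V => (U7 K5 E G univ W ∨ X2 E univ W) ∧ W ⊂ M) := by
  refine l2u7 (kp5 cf) (fun E G Y M _ hG _ _ hMY hM hK => ?_) (univ : Finset V).card E G univ M rfl hGE hG hE
    (subset_univ M) hM hU
  unfold K5 at hK
  rw [inter_eq_left.2 hMY] at hK
  have hne : M.Nonempty := by
    rw [nonempty_iff_ne_empty]
    rintro rfl
    exact hK (Or.inl (H8F.cov5_empty G))
  obtain ⟨w, hw⟩ := hne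
  have h1 := H96TF.ac_nf (G := G) (Pi := Cv G) (fun A B h hB => cv_dn _ _ _ h hB)
    (fun A b d U hb hd hbU hdU hU hin => ex G Y A U b d hG hb hd hbU hdU hU hin) M.card M ∅ rfl hM
    ⟨w, hw, by
      have h2 := cf.pair G Y w w hG (hMY hw) (hMY hw)
      rw [pair_eq_singleton] at h2
      exact Or.inr h2⟩ (by rw [union_empty]; exact hK)
  refine ac_congr (fun c => ?_) h1
  have e : (fun W' : Finset V => W' ⊆ M ∧ W' ≠ M ∧ ¬ Cv G (W' ∪ ∅)) =
      fun W : Finset V => ¬ K5 G Y W ∧ W ⊂ M := by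
    funext W
    rw [union_empty]
    refine propext ⟨fun h => ⟨?_, Finset.ssubset_iff_subset_ne.2 ⟨h.1, h.2.1⟩⟩, fun h => ⟨h.2.1, h.2.ne, ?_⟩⟩
    · unfold K5
      rw [inter_eq_left.2 (h.1.trans hMY)]
      exact h.2.2
    · have h5 := h.1
      unfold K5 at h5
      rwa [inter_eq_left.2 (h.2.1.trans hMY)] at h5
  rw [e]

/-- THE FUNCTOR STEP, relative to a graph `R`, cycles of length at least five. -/
theorem formA {V : Type} [Fintype V] [DecidableEq V] (cf : CycFacts V) (ex : Exch V)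
    {cross : Sym2 V → Sym2 V → Prop}
    (hsymm : ∀ e f, cross e f → cross f e) (hHD : ∀ W, HD cross W) (h4 : 3 ≤ Fintype.card V)
    {R : Finset (Sym2 V)} (hR : R ⊆ LW univ) :
    ∃ G : Finset (Sym2 V), G ⊆ LW univ ∧ Plane cross G ∧ TC G ∧ 2 * Fintype.card V ≤ G.card + 3 ∧
      ((∃ F ⊆ G, R ⊆ F ∧ ¬ Disc univ F ∧ ∀ v, dg F v = 2) ∨
        (NoCut2 (G ∪ R) ∧ Cv G univ)) := by
  have hV : ∃ x y : V, x ≠ y := by
    obtain ⟨x, y, h⟩ := Fintype.exists_pair_of_one_lt_card (α := V) (by omega)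
    exact ⟨x, y, h⟩
  have hK := kp5 cf
  obtain ⟨G, hGL, hGp, ⟨hT, hN⟩, hcard⟩ := exactX hsymm hHD hV
    (fun G W => Disc W G ∧ (TC G → U7 K5 (G ∪ R) G univ W ∨ X2 (G ∪ R) univ W))
    (fun G => TC G ∧ ((∃ F ⊆ G, R ⊆ F ∧ ¬ Disc univ F ∧ ∀ v, dg F v = 2) ∨
      (NoCut2 (G ∪ R) ∧ Cv G univ)))
    (fun G G' hGG _ W hW => ⟨H85TF.disc_anti hGG hW.1, fun hT =>
      (hW.2 (tc_mono hGG hT)).imp (fun h => h.anti hK (union_subset_union_left hGG) hGG)
        (fun h => h.anti (union_subset_union_left hGG))⟩)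
    (fun G W _ h => h.1)
    (fun G G' hGG _ h => ⟨tc_mono hGG h.1, h.2.imp (fun ⟨F, h1, h2⟩ => ⟨F, h1.trans hGG, h2⟩)
      (fun h => ⟨noCut2_mono (union_subset_union_left hGG) h.1, cv_mono _ _ _ hGG h.2⟩)⟩)
    (fun G hGL hno => by
      have hEL : G ∪ R ⊆ LW univ := union_subset hGL hR
      by_cases hT : TC G
      · have hTE : TC (G ∪ R) := tc_mono subset_union_left hT
        have hYE := tcy_of_tc (by omega) hEL hTE
        have hYG := tcy_of_tc (by omega) hGL hT
        have hdx : ∀ {W : Finset V}, X2 (G ∪ R) univ W → Disc W G := fun h =>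
          H85TF.disc_anti subset_union_left (H98TF.disc_of_x2 h)
        by_cases hU : U7 K5 (G ∪ R) G univ univ
        · refine ac_congr (fun t => ?_) (H30D.remove_univ
            (P := fun W => U7 K5 (G ∪ R) G univ W ∨ X2 (G ∪ R) univ W) (G := G) (fun M hM hMc => ?_) (Or.inl hU))
          · constructor
            · exact ch_mono fun W hW => ⟨hW.2, fun _ => hW.1⟩
            · exact ch_mono fun W hW => ⟨hW.2 hT, hW.1⟩
          · exact L2_K5 cf ex subset_union_left hYG hYE hMc (hM.resolve_right fun h => hMc (hdx h))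
        · have hU' : ∀ W, ¬ U7 K5 (G ∪ R) G univ W := fun W h => hU (h.up hK (subset_univ W))
          have hcov : Cv G univ := by
            by_contra h
            refine hU (U7.base fun h5 => h ?_)
            unfold K5 at h5
            rwa [univ_inter] at h5
          have hno' : ¬ ((∃ F ⊆ G, R ⊆ F ∧ ¬ Disc univ F ∧ ∀ v, dg F v = 2) ∨
              (NoCut2 (G ∪ R) ∧ Cv G univ)) := fun h => hno ⟨hT, h⟩
          rw [not_or, not_and] at hno'
          have hsep : ∃ x y P Q, Sep (G ∪ R) univ x y P Q := by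
            by_contra hcon
            push Not at hcon
            exact hno'.2 (noCut2_of_noSep hcon) hcov
          have hdeg : ¬ ∀ v, dg (G ∪ R) v = 2 := fun h => by
            have h5 := eq_of_two subset_union_left hYG hYE (fun v _ => h v)
            exact hno'.1 ⟨G, Subset.rfl, by
              intro e he
              rw [h5]
              exact mem_union_right _ he, hT.1, fun v => by rw [h5]; exact h v⟩
          refine ac_congr (fun t => ?_) (H36R.L1_4 (G ∪ R) hEL hYE hsep hdeg)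
          constructor
          · exact ch_mono fun W hW => ⟨hdx hW, fun _ => Or.inr hW⟩
          · exact ch_mono fun W hW => (hW.2 hT).resolve_left (hU' W)
      · refine ac_congr (fun t => ?_) (H30D.ac_disc G (by
          by_contra hcon
          rw [not_or, not_exists] at hcon
          exact hT hcon))
        constructor
        · exact ch_mono fun W hW => ⟨hW, fun h => absurd h hT⟩
        · exact ch_mono fun W hW => hW.1)
  exact ⟨G, hGL, hGp, hT, hcard, hN⟩

/-- Cycles in a Hamiltonian cycle. -/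
theorem len_ham {n : ℕ} (hn : 4 ≤ n) {F : Finset (Sym2 (Fin n))} (hF : ∀ e ∈ F, ¬ e.IsDiag)
    (hc : ¬ Disc univ F) (h2 : ∀ v, dg F v = 2) {v : Fin n} (c : (gr F).Walk v v) (hcyc : c.IsCycle) :
    min n 5 ≤ c.length := by
  have h4 := four_le_gr (nt_of_ham (by rw [Fintype.card_fin]; exact hn) hF hc h2) c hcyc
  by_cases h5 : 5 ≤ n
  · have := H8V.five_le_gr (nt_of_ham (by rw [Fintype.card_fin]; omega) hF hc h2)
      (H8V.nq_of_ham (by rw [Fintype.card_fin]; exact h5) hF hc h2) c hcyc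
    omega
  · omega

/-- Drawing level. -/
theorem drawA {n : ℕ} (hn : 4 ≤ n) (D : SimpleDrawing n) (R : SimpleGraph (Fin n))
    {G : Finset (Sym2 (Fin n))} (hGL : G ⊆ LW univ) (hGP : Plane (crossT (H53P.table D)) G) (hT : TC G)
    (hm : 2 * Fintype.card (Fin n) ≤ G.card + 3)
    (h : (∃ F ⊆ G, es R ⊆ F ∧ ¬ Disc univ F ∧ ∀ v, dg F v = 2) ∨
      (NoCut2 (G ∪ es R) ∧ Cv G univ)) :
    ∃ G H F : SimpleGraph (Fin n), D.Plane G ∧ H ≤ G ∧ F ≤ H ∧ H.Connected ∧
      (∀ v, (H.induce {w | w ≠ v}).Connected) ∧ H.edgeSet.ncard = 2 * n - 3 ∧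
      (∀ v, (F.neighborSet v).ncard = 2) ∧
      (∀ (v : Fin n) (c : F.Walk v v), c.IsCycle → min n 5 ≤ c.length) ∧
      ((R ≤ F ∧ ∃ (v : Fin n) (c : F.Walk v v), c.IsHamiltonianCycle) ∨
        ∀ u v, ((G ⊔ R).induce {w | w ≠ u ∧ w ≠ v}).Connected) := by
  have hd := not_diag_of_LW hGL
  rcases h with ⟨F, hF, hRF, hc, h2⟩ | ⟨hN, hC⟩
  · have hdF : ∀ e ∈ F, ¬ e.IsDiag := fun e he => hd e (hF he)
    obtain ⟨H, g1, g2, g3, g4, g5, g6⟩ := layer2 (by omega) D hGL hGP hT hF (fun v => (h2 v).le) hm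
    refine ⟨gr G, H, gr F, g1, g2, g6, g3, g4, g5, fun v => (degree_gr hdF v).trans (h2 v),
      fun v c hcyc => len_ham hn hdF hc h2 c hcyc,
      Or.inl ⟨?_, ⟨0, by omega⟩, ham_gr (by omega) hdF hc h2 _⟩⟩
    rw [← gr_es R]
    exact gr_mono hRF
  · have h8 := conn3 (G := G ∪ es R) (by omega) (tc_mono subset_union_left hT) hN
    rw [gr_union, gr_es] at h8
    rcases hC with ⟨F, hF, -, ht, hq, h2⟩ | h1
    · have hdF : ∀ e ∈ F, ¬ e.IsDiag := fun e he => hd e (hF he)
      obtain ⟨H, g1, g2, g3, g4, g5, g6⟩ := layer2 (by omega) D hGL hGP hT hF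
        (fun v => (h2 v (mem_univ v)).le) hm
      exact ⟨gr G, H, gr F, g1, g2, g6, g3, g4, g5, fun v => (degree_gr hdF v).trans (h2 v (mem_univ v)),
        fun v c hcyc => le_trans (min_le_right _ _) (H8V.five_le_gr ht hq c hcyc), Or.inr h8⟩
    · obtain ⟨F, hF, hc, h2⟩ := ham_of_one h1
      have hdF : ∀ e ∈ F, ¬ e.IsDiag := fun e he => hd e (hF he)
      obtain ⟨H, g1, g2, g3, g4, g5, g6⟩ := layer2 (by omega) D hGL hGP hT hF (fun v => (h2 v).le) hm
      exact ⟨gr G, H, gr F, g1, g2, g6, g3, g4, g5, fun v => (degree_gr hdF v).trans (h2 v),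
        fun v c hcyc => len_ham hn hdF hc h2 c hcyc, Or.inr h8⟩

/-- THE ONE STATEMENT with cycles of length at least `min n 5` for every `R`, from the exchange. -/
theorem mainA {n : ℕ} (ex : Exch (Fin n)) (hn : 4 ≤ n) (D : SimpleDrawing n) (R : SimpleGraph (Fin n)) :
    ∃ G H F : SimpleGraph (Fin n), D.Plane G ∧ unc D ≤ G ∧ H ≤ G ∧ F ≤ H ∧ H.Connected ∧
      (∀ v, (H.induce {w | w ≠ v}).Connected) ∧ H.edgeSet.ncard = 2 * n - 3 ∧
      (∀ v, (F.neighborSet v).ncard = 2) ∧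
      (∀ (v : Fin n) (c : F.Walk v v), c.IsCycle → min n 5 ≤ c.length) ∧
      ((R ≤ F ∧ unc D ≤ F ∧ ∃ (v : Fin n) (c : F.Walk v v), c.IsHamiltonianCycle) ∨
        ∀ u v, ((G ⊔ R).induce {w | w ≠ u ∧ w ≠ v}).Connected) := by
  obtain ⟨G, hGL, hGP, hT, hm, h⟩ := formA (H77D5.cf (Fin n)) ex (H53P.crossT_symm (H53P.table D))
    (H98W.hd_table (H53P.table D)) (by rw [Fintype.card_fin]; omega) (H36V.es_sub (R ⊔ unc D))
  obtain ⟨G, H, F, k1, k2, k3, k4, k5, k6, k7, k8, k9⟩ := drawA hn D (R ⊔ unc D) hGL hGP hT hm h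
  refine ⟨G ⊔ unc D, H, F, plane_unc D (le_refl _) k1, le_sup_right, k2.trans le_sup_left, k3, k4, k5, k6, k7, k8,
    k9.imp (fun h => ⟨le_sup_left.trans h.1, le_sup_right.trans h.1, h.2⟩) ?_⟩
  intro h u v
  rw [sup_assoc, sup_comm (unc D) R]
  exact h u v

end H47G6
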